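import Pool.Agent.helper51.PC.Spec

/-!
# Project pc, row FIN: the assembly
-/

set_option autoImplicit false

namespace Pool.Agent.PC

open MvPolynomial

universe u

/-! ### valuation rings -/

theorem FIN_non {K : Type u} [Field K] (O : ValuationSubring K) (x : K) :
    x ∈ O.nonunits ↔ O.valuation x < 1 := Iff.rfl

theorem FIN_one {K : Type u} [Field K] (O : ValuationSubring K) {x : K} (h1 : x ∈ O) (h2 : x⁻¹ ∈ O) (h0 : x ≠ 0) :
    O.valuation x = 1 := by
  have a1 : O.valuation x ≤ 1 := (O.valuation_le_one_iff x).2 h1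
  have a2 : O.valuation x⁻¹ ≤ 1 := (O.valuation_le_one_iff _).2 h2
  have a3 : O.valuation x * O.valuation x⁻¹ = 1 := by
    rw [← map_mul, mul_inv_cancel₀ h0, map_one]
  refine le_antisymm a1 ?_
  calc (1 : O.ValueGroup) = O.valuation x * O.valuation x⁻¹ := a3.symm
    _ ≤ O.valuation x * 1 := mul_le_mul_right a2 _
    _ = O.valuation x := mul_one _

theorem FIN_non' {K : Type u} [Field K] (O : ValuationSubring K) {x : K} (h0 : x ≠ 0) :
    x ∈ O.nonunits ↔ x ∈ O ∧ x⁻¹ ∉ O := by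
  rw [FIN_non]
  constructor
  · intro h
    refine ⟨(O.valuation_le_one_iff x).1 h.le, fun h2 => ?_⟩
    rw [FIN_one O ((O.valuation_le_one_iff x).1 h.le) h2 h0] at h
    exact lt_irrefl _ h
  · rintro ⟨h1, h2⟩
    rcases lt_or_eq_of_le ((O.valuation_le_one_iff x).2 h1) with h | h
    · exact h
    · exfalso
      apply h2
      rw [← O.valuation_le_one_iff, map_inv₀, h, inv_one]

/-- uniformisers of a discrete valuation ring -/
theorem FIN_unif {K : Type u} [Field K] (O : ValuationSubring K) (hO : IsDiscreteValuationRing O) :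
    ∃ π : K, IsUnif O π ∧ ∀ x : K, x ≠ 0 → ∃ (u : K) (t : ℤ), O.valuation u = 1 ∧ x = u * π ^ t := by
  obtain ⟨ϖ, hϖ⟩ := IsDiscreteValuationRing.exists_irreducible O
  have hϖ0 : (ϖ : K) ≠ 0 := fun h => hϖ.ne_zero (Subtype.ext h)
  refine ⟨ϖ, ⟨hϖ0, fun x => ?_⟩, ?_⟩
  · have hm := hϖ.maximalIdeal_eq
    constructor
    · intro hx
      have hxO : x ∈ O := (O.valuation_le_one_iff x).1 (le_of_lt hx)
      have h1 : (⟨x, hxO⟩ : O) ∈ IsLocalRing.maximalIdeal O := (O.valuation_lt_one_iff _).2 hx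
      rw [hm, Ideal.mem_span_singleton'] at h1
      obtain ⟨y, hy⟩ := h1
      refine ⟨y, y.2, ?_⟩
      have := congrArg Subtype.val hy
      rw [mul_comm]
      exact this.symm
    · rintro ⟨y, hy, rfl⟩
      have h1 : (⟨(ϖ : K) * y, O.mul_mem _ _ ϖ.2 hy⟩ : O) ∈ IsLocalRing.maximalIdeal O := by
        rw [hm, Ideal.mem_span_singleton']
        refine ⟨⟨y, hy⟩, Subtype.ext ?_⟩
        show y * (ϖ : K) = (ϖ : K) * y
        exact mul_comm _ _
      exact (O.valuation_lt_one_iff _).1 h1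
  · have main : ∀ x : K, x ≠ 0 → x ∈ O → ∃ (u : K) (t : ℤ), O.valuation u = 1 ∧ x = u * (ϖ : K) ^ t := by
      intro x hx hxO
      obtain ⟨m, u, hu⟩ := IsDiscreteValuationRing.eq_unit_mul_pow_irreducible
        (x := (⟨x, hxO⟩ : O)) (fun h => hx (congrArg Subtype.val h)) hϖ
      refine ⟨(u : O), m, O.valuation_unit u, ?_⟩
      have := congrArg Subtype.val hu
      rw [zpow_natCast]
      exact this
    intro x hx
    rcases O.mem_or_inv_mem x with h | h
    · exact main x hx h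
    · obtain ⟨u, t, hu, ht⟩ := main x⁻¹ (inv_ne_zero hx) h
      refine ⟨u⁻¹, -t, ?_, ?_⟩
      · rw [map_inv₀, hu, inv_one]
      · rw [zpow_neg, ← mul_inv, ← ht, inv_inv]

theorem FIN_smul {k K : Type u} [Field k] [Field K] [Algebra k K] {n : ℕ} (O : ValuationSubring K) (c : K)
    (hc : c ∈ O) (θ : Form k K n) (hθ : θ ∈ Reg k n O) : c • θ ∈ Reg k n O := by
  unfold Reg at hθ ⊢
  induction hθ using AddSubgroup.closure_induction with
  | mem x hx =>
    obtain ⟨e, he, a, ha, rfl⟩ := hx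
    exact AddSubgroup.subset_closure ⟨c * e, O.mul_mem _ _ hc he, a, ha, smul_smul _ _ _⟩
  | zero =>
    rw [smul_zero]
    exact AddSubgroup.zero_mem _
  | add x y _ _ hx hy =>
    rw [smul_add]
    exact AddSubgroup.add_mem _ hx hy
  | neg x _ hx =>
    rw [smul_neg]
    exact AddSubgroup.neg_mem _ hx

theorem FIN_ordge {k K : Type u} [Field k] [Field K] [Algebra k K] {n : ℕ} (O : ValuationSubring K)
    (ω : Form k K n) (π g u : K) (t : ℤ) (hπ : IsUnif O π) (hg : g ≠ 0) (hu : O.valuation u = 1)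
    (ht : g = u * π ^ t) (h : g⁻¹ • ω ∈ Reg k n O) : OrdGe O ω t := by
  refine ⟨π, hπ, u • (g⁻¹ • ω), FIN_smul O u ((O.valuation_le_one_iff u).1 hu.le) _ h, ?_⟩
  rw [smul_smul, smul_smul]
  have h6 : π ^ t * u * g⁻¹ = 1 := by
    rw [mul_comm (π ^ t) u, ← ht, mul_inv_cancel₀ hg]
  rw [h6, one_smul]

theorem FIN_ord0 {k K : Type u} [Field k] [Field K] [Algebra k K] {n : ℕ} (O : ValuationSubring K)
    (ω : Form k K n) (π : K) (hπ : IsUnif O π) (h : ω ∈ Reg k n O)
    (h2 : ∀ y : K, y • ω ∈ Reg k n O → y ∈ O) : OrdEq O ω 0 := by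
  refine ⟨⟨π, hπ, ω, h, by rw [zpow_zero, one_smul]⟩, ?_⟩
  rintro ⟨ϖ, hϖ, ξ, hξ, h1⟩
  rw [zero_add, zpow_one] at h1
  have h3 : ϖ⁻¹ • ω = ξ := by rw [h1, smul_smul, inv_mul_cancel₀ hϖ.1, one_smul]
  have h4 := h2 ϖ⁻¹ (by rw [h3]; exact hξ)
  have h5 : ϖ ∈ O.nonunits := (hϖ.2 ϖ).2 ⟨1, O.one_mem, (mul_one ϖ).symm⟩
  exact ((FIN_non' O hϖ.1).1 h5).2 h4

theorem FIN_fld {K : Type u} [Field K] {x z a s b t : K} (hs : s ≠ 0) (ht : t ≠ 0) (hxz : x * z ≠ 0)
    (hz : z = a / s) (h : (x * z)⁻¹ = b / t) : s * t = b * (x * a) := by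
  have h1 : x * z * (b / t) = 1 := by rw [← h]; exact mul_inv_cancel₀ hxz
  rw [hz] at h1
  have h2 : s * t = s * t * (x * (a / s) * (b / t)) := by rw [h1, mul_one]
  rw [h2]
  field_simp

/-- `x` generates the maximal ideal of the local ring at `(x)` -/
theorem FIN_pr {R K : Type u} [CommRing R] [IsDomain R] [Field K] [Algebra R K] [IsFractionRing R K]
    (P : Ideal R) (O : ValuationSubring K) (hP : P.IsPrime) (x : R) (hx : x ≠ 0) (hPx : P = Ideal.span {x})
    (hO : IsLocAt P O) : IsUnif O (algebraMap R K x) := by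
  have inj := IsFractionRing.injective R K
  have hne : ∀ s : R, s ≠ 0 → algebraMap R K s ≠ 0 := by
    intro s hs h
    exact hs (inj (by rw [h, map_zero]))
  have hsx : ∀ s : R, s ∉ P → algebraMap R K s ≠ 0 := by
    intro s hs
    refine hne s ?_
    rintro rfl
    exact hs P.zero_mem
  have hRO : ∀ r : R, algebraMap R K r ∈ O := by
    intro r
    rw [hO]
    exact ⟨r, 1, fun h => hP.ne_top ((Ideal.eq_top_iff_one _).2 h), by rw [map_one, div_one]⟩
  have hg := hne x hx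
  refine ⟨hg, fun y => ⟨?_, ?_⟩⟩
  · intro hy
    by_cases hy0 : y = 0
    · exact ⟨0, O.zero_mem, by rw [hy0, mul_zero]⟩
    obtain ⟨hy1, hy2⟩ := (FIN_non' O hy0).1 hy
    obtain ⟨a, s, hs, rfl⟩ := (hO y).1 hy1
    have haP : a ∈ P := by
      by_contra ha
      apply hy2
      rw [hO]
      exact ⟨s, a, ha, by rw [inv_div]⟩
    rw [hPx, Ideal.mem_span_singleton'] at haP
    obtain ⟨b, rfl⟩ := haP
    refine ⟨algebraMap R K b / algebraMap R K s, (hO _).2 ⟨b, s, hs, rfl⟩, ?_⟩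
    rw [map_mul]
    ring
  · rintro ⟨z, hz, rfl⟩
    by_cases hz0 : z = 0
    · rw [hz0, mul_zero, FIN_non, map_zero]
      exact zero_lt_one
    have hxz : algebraMap R K x * z ≠ 0 := mul_ne_zero hg hz0
    rw [FIN_non' O hxz]
    refine ⟨O.mul_mem _ _ (hRO x) hz, fun h => ?_⟩
    obtain ⟨a, s, hs, hz1⟩ := (hO z).1 hz
    obtain ⟨b, t, ht, hz2⟩ := (hO _).1 h
    have h6 : algebraMap R K (s * t) = algebraMap R K (b * (x * a)) := by
      rw [map_mul, map_mul, map_mul]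
      exact FIN_fld (hsx s hs) (hsx t ht) hxz hz1 hz2
    have h8 := inj h6
    have h9 : s * t ∈ P := by
      rw [h8, hPx]
      exact Ideal.mul_mem_left _ _ (Ideal.mul_mem_right _ _ (Ideal.mem_span_singleton_self x))
    rcases hP.mem_or_mem h9 with h10 | h10
    · exact hs h10
    · exact ht h10

theorem FIN_num (n p : ℕ) (hp : p.Prime) (h5 : 5 ≤ p) (h : 2 * p ≤ (n - 1) * (n - 2)) : Num n (min n p) p := by
  have hn : 5 ≤ n := by
    by_contra hcon
    have : (n - 1) * (n - 2) ≤ 3 * 2 := Nat.mul_le_mul (by omega) (by omega)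
    omega
  refine ⟨hp, by omega, min_le_left _ _, min_le_right _ _, ?_⟩
  rcases le_total n p with h1 | h1
  · rwa [min_eq_left h1]
  · rw [min_eq_right h1]
    obtain ⟨q, rfl⟩ : ∃ q, p = q + 5 := ⟨p - 5, by omega⟩
    have e1 : q + 5 - 1 = q + 4 := rfl
    have e2 : q + 5 - 2 = q + 3 := rfl
    rw [e1, e2]
    nlinarith

/-- FIN -/
theorem FIN (hSGK : SGK_stmt.{u}) (hFGI : FGI_stmt.{u}) (hNOR : NOR_stmt.{u}) (hDIM : DIM_stmt.{u})
    (hSID : SID_stmt.{u}) (hNNS : NNS_stmt.{u}) (hLDV : LDV_stmt.{u}) (hONE : ONE_stmt.{u}) : FIN_stmt.{u} := by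
  intro n p hp h5 h2 k _ _ hchar
  have hnum := FIN_num n p hp h5 h2
  set d := min n p with hd
  have h4 : 4 ≤ d := hnum.2.1
  have hdn : d ≤ n := hnum.2.2.1
  have hn : 0 < n := by omega
  obtain ⟨hft, hint⟩ := hFGI k n d p hnum hchar
  have hnoe : IsNoetherianRing (RR k n d) := Algebra.FiniteType.isNoetherianRing k (RR k n d)
  have hic := hNOR k n d
  obtain ⟨x, hx0, hxd, hxp, hxh, hxu⟩ := hSID k n d hn hnoe
  obtain ⟨ω, hω, hω1, hω2⟩ := hONE k n d p hn hnum hchar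
  have hxne : x ≠ 0 := by
    intro h
    have h1 : (X ⟨0, hn⟩ : AA k n) = 0 := by rw [← hx0, h]; rfl
    exact MvPolynomial.X_ne_zero _ h1
  have hg : algebraMap (RR k n d) (FF k n d) x ≠ 0 := by
    intro h
    exact hxne (IsFractionRing.injective (RR k n d) (FF k n d) (by rw [h, map_zero]))
  refine ⟨RR k n d, inferInstance, inferInstance, inferInstance, hft, hic, hDIM k n d hint, x, ?_, ?_⟩
  · refine ⟨hxp, hxh, rfl, fun P => ⟨le_rfl, zero_le_one⟩, ?_, ω, 1, hω, one_pos, fun M hM =>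
      ⟨algebraMap (RR k n d) (FF k n d) x, hg, ?_, ?_⟩⟩
    · have : {P : Ideal (RR k n d) | P.IsPrime ∧ P.height = 1 ∧ (fun _ => (0 : ℚ)) P ≠ 0} = ∅ := by
        ext P
        simp
      rw [this]
      exact Set.finite_empty
    · -- the divisors on `X`
      intro P O hP hPh hPM hO
      have hdvr := hLDV (RR k n d) (FF k n d) P O hP hPh hO
      obtain ⟨π, hπ, -⟩ := FIN_unif O hdvr
      have hRO : ∀ r : RR k n d, algebraMap (RR k n d) (FF k n d) r ∈ O := by
        intro r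
        rw [hO]
        exact ⟨r, 1, fun h => hP.ne_top ((Ideal.eq_top_iff_one _).2 h), by rw [map_one, div_one]⟩
      have hmem := (hω1 O hdvr hRO).1
      have hord : OrdEq O ω 0 := FIN_ord0 O ω π hπ hmem (hω2 P O hP hO)
      by_cases hPS : P = Ideal.span {x}
      · refine ⟨0, 1, hord, ?_, by rw [if_pos hPS]; norm_num⟩
        exact ⟨algebraMap (RR k n d) (FF k n d) x, 1, FIN_pr P O hP x hxne hPS hO, map_one _, by
          rw [zpow_one, one_mul]⟩
      · refine ⟨0, 0, hord, ?_, by rw [if_neg hPS]; norm_num⟩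
        have hxP : x ∉ P := fun h => hPS (hxu P hP hPh h)
        refine ⟨π, algebraMap (RR k n d) (FF k n d) x, hπ, ?_, by rw [zpow_zero, mul_one]⟩
        refine FIN_one O (hRO x) ?_ hg
        rw [hO]
        exact ⟨1, x, hxP, by rw [map_one, one_div]⟩
    · -- the exceptional divisors
      intro P O hO hcen hPh _
      obtain ⟨π, hπ, hπ2⟩ := FIN_unif O hO.1
      have hmem := (hω1 O hO.1 (fun r => (hcen r).1)).2 P hcen hPh x hx0
      obtain ⟨u, t, hu, ht⟩ := hπ2 _ hg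
      refine ⟨t, t, FIN_ordge O ω π _ u t hπ hg hu ht hmem, ⟨π, u, hπ, hu, ht⟩, ?_⟩
      norm_num
  · exact hNNS k n d h4 hdn x hx0 hxd hxp

end Pool.Agent.PC
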